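import Mathlib
import Pool.Agent.MP1bdb59C.HilbAll
import Pool.Agent.MP1bdb59C.HitFG
import Pool.Agent.SJac.Transfer

/-!
# The Selmer group conjecture for infinitely many twists of every superelliptic curve over a
function field over a finitely generated field of characteristic zero
-/

open Polynomial Pool.Agent.SJac

open Pool.Agent.MP1bdb59 (TateModule)

noncomputable section

open scoped Classical

namespace Pool.Agent.Results.MP_1bdb59_nt.FinGenTwists

universe u v

/-- Let `k` be a field of characteristic zero which is finitely generated over `ℚ`, `K` an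
extension field of `k`, `h` an element of `K` transcendental over `k` with `K` finite over `k(h)`
(so `K` is the function field of a curve over `k` and `h` any nonconstant function), `ℓ` a prime
number and `f` in `K[x]` a monic irreducible polynomial of degree `n` prime to `ℓ` such that `k` is
algebraically closed in `K[x]/(f)`. Let `Γ` be a finitely generated subgroup of the multiplicative
group of `K`. Then for infinitely many `c` in `k` the following holds for all `u` in `k`, `u ≠ 0`,
all `γ` in `Γ` and all `j` prime to `ℓ`. Put `d = u γ (h - c)^j` and let `J` be the Jacobian of the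
twist `y^ℓ = d^n f(x/d)` of the curve `y^ℓ = f(x)`. The Tate-Shafarevich group of `J` over `K` (for
the places of `K` trivial on `k`) has no element of order `ℓ`, so its `ℓ`-adic Tate module
vanishes, and `J(K) = ℓ J(K)`. -/
theorem result {k : Type u} {K : Type v} [Field k] [CharZero k] [Field K] [Algebra k K]
    (hk : (⊤ : IntermediateField ℚ k).FG) {h : K} (hh : Transcendental k h)
    (hfin : FiniteDimensional (IntermediateField.adjoin k {h}) K) {ℓ : ℕ} (hℓ : ℓ.Prime)
    {f : K[X]} (hf : f.Monic) (hirr : Irreducible f) (hdeg : ¬ ℓ ∣ f.natDegree)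
    (hreg : ∀ x : AdjoinRoot f, IsAlgebraic k x → x ∈ Set.range (algebraMap k (AdjoinRoot f)))
    {Γ : Subgroup Kˣ} (hΓ : Γ.FG) :
    {c : k | ∀ (u : kˣ), ∀ γ ∈ Γ, ∀ j : ℕ, ¬ ℓ ∣ j → ∀ g : K[X],
      g = f.scaleRoots (algebraMap k K u * γ * (h - algebraMap k K c) ^ j) →
      (∀ ξ ∈ Sha k ℓ g, ℓ • ξ = 0 → ξ = 0) ∧ TateModule ℓ (Sha k ℓ g) = ⊥ ∧
        ∀ t : Jac ℓ g K, (∀ σ, act ℓ g K σ t = t) →
          ∃ s : Jac ℓ g K, (∀ σ, act ℓ g K σ s = s) ∧ ℓ • s = t}.Infinite := by
  have hp : Fact ℓ.Prime := ⟨hℓ⟩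
  refine (Pool.Agent.MP1bdb59C.hilbert_twist_all (Pool.Agent.MP1bdb59C.isHilbertian_of_fg hk) hh hf
    hirr hdeg hreg hΓ).mono ?_
  intro c hc u γ hγ j hj g hg
  obtain ⟨h1, h2⟩ := hc u γ hγ j hj g hg
  have h1' := transfer k ℓ ℓ g h1
  refine ⟨h1', Pool.Agent.MP1bdb59C.tateModule_eq_bot ?_, transfer_div ℓ ℓ g h2⟩
  rintro ⟨ξ, hξ⟩ hξ2
  apply Subtype.ext
  exact h1' ξ hξ (congrArg Subtype.val hξ2)

end Pool.Agent.Results.MP_1bdb59_nt.FinGenTwists
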