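import Mathlib
import Pool.Agent.MP1bdb59P.RAll
import Pool.Agent.MP1bdb59C.HitFG
import Pool.Agent.SJac.Transfer

/-!
# Infinitely many twists of positive rank of a superelliptic curve over a function field over a
finitely generated field of characteristic zero which satisfy the Selmer group conjecture
-/

open Polynomial Pool.Agent.SJac

open Pool.Agent.MP1bdb59 (TateModule)

noncomputable section

open scoped Classical

namespace Pool.Agent.Results.MP_1bdb59_nt.RankTwists

universe u v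

/-- The group `J(K)` of rational points of the Jacobian `J` of `y^ℓ = g(x)`: the elements of
`J(K^s)` fixed by `Gal(K^s/K)`. -/
def MW (ℓ : ℕ) {K : Type v} [Field K] (g : K[X]) : AddSubgroup (Jac ℓ g K) where
  carrier := {t | ∀ σ, act ℓ g K σ t = t}
  zero_mem' := fun σ => map_zero _
  add_mem' := by
    intro a b ha hb σ
    rw [map_add, ha, hb]
  neg_mem' := by
    intro a ha σ
    rw [map_neg, ha]

open Pool.Agent.MP1bdb59C in
/-- Comparison of two forms of the index. -/
lemma card_eq (ℓ : ℕ) {K : Type v} [Field K] (g : K[X]) :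
    Nat.card (MW ℓ g ⧸ (nsmulAddMonoidHom ℓ : MW ℓ g →+ MW ℓ g).range) =
      ((Idx.inv (MP1bdb59C.act ℓ g K) ⊤).map (nsmulAddMonoidHom ℓ)).relIndex
        (Idx.inv (MP1bdb59C.act ℓ g K) ⊤) := by
  have hmem : ∀ t, t ∈ MW ℓ g ↔ toOld ℓ g K t ∈ Idx.inv (MP1bdb59C.act ℓ g K) ⊤ := by
    intro t
    constructor
    · intro h σ _
      rw [← toOld_act, h σ]
    · intro h σ
      apply (toOld ℓ g K).injective
      rw [toOld_act]
      exact h σ trivial
  let e : MW ℓ g ≃+ Idx.inv (MP1bdb59C.act ℓ g K) ⊤ :=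
    { toFun := fun t => ⟨toOld ℓ g K t.1, (hmem t.1).mp t.2⟩
      invFun := fun t => ⟨(toOld ℓ g K).symm t.1, (hmem _).mpr (by
        rw [AddEquiv.apply_symm_apply]
        exact t.2)⟩
      left_inv := fun t => Subtype.ext ((toOld ℓ g K).symm_apply_apply t.1)
      right_inv := fun t => Subtype.ext ((toOld ℓ g K).apply_symm_apply t.1)
      map_add' := fun a b => Subtype.ext (map_add (toOld ℓ g K) a.1 b.1) }
  have h1 : ((nsmulAddMonoidHom ℓ : MW ℓ g →+ MW ℓ g).range).map (e : MW ℓ g →+ _) =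
      ((Idx.inv (MP1bdb59C.act ℓ g K) ⊤).map (nsmulAddMonoidHom ℓ)).addSubgroupOf
        (Idx.inv (MP1bdb59C.act ℓ g K) ⊤) := by
    ext x
    rw [AddSubgroup.mem_addSubgroupOf]
    constructor
    · rintro ⟨_, ⟨t, rfl⟩, rfl⟩
      refine ⟨(e t).1, (e t).2, ?_⟩
      change ℓ • (e t).1 = (e (ℓ • t)).1
      rw [map_nsmul]
      rfl
    · rintro ⟨t, ht, h⟩
      refine ⟨ℓ • e.symm ⟨t, ht⟩, ⟨_, rfl⟩, ?_⟩
      apply Subtype.ext
      change (e (ℓ • e.symm ⟨t, ht⟩)).1 = x.1
      rw [map_nsmul, AddEquiv.apply_symm_apply, ← h]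
      rfl
  unfold AddSubgroup.relIndex
  rw [← h1, AddSubgroup.index_map_equiv]
  rfl

/-- Let `k` be a field of characteristic zero which is finitely generated over `ℚ`, `K` an
extension field of `k`, `h` an element of `K` transcendental over `k` with `K` finite over `k(h)`
(so `K` is the function field of a curve over `k` and `h` any nonconstant function), `ℓ` a prime
number and `f` in `K[x]` a monic irreducible polynomial of degree `n` prime to `ℓ`, with root `θ`
in `K(θ)`, such that `q = f(x)/(x - θ)` is irreducible over `K(θ)` and `k` is algebraically closed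
in `K(θ)[x]/(q)`. Then for infinitely many `c₁` in `k` there are infinitely many `c₂` in `k` with
the following property. Put `w = h - c₁`, `x₀ = c₂ + 1/w` and `D = w^n f(x₀)`, let `j` be a natural
number with `n j + 1` divisible by `ℓ` and let `J` be the Jacobian of the curve `y^ℓ = d^n f(x/d)`,
`d = D^j w`. This curve is isomorphic over `K` to the twist `f(x₀) y^ℓ = f(x)` of `y^ℓ = f(x)`,
which has the rational point `(x₀, 1)`. The Tate-Shafarevich group of `J` over `K` (for the places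
of `K` trivial on `k`) has no element of order `ℓ`, so its `ℓ`-adic Tate module vanishes,
`J(K)` has no element of order `ℓ`, and the order of `J(K) / ℓ J(K)` is `ℓ^r` where
`r = (ℓ - 1)/[k(ζ_ℓ) : k]`. (So `J(K)` has rank `r > 0`.) -/
theorem result {k : Type u} {K : Type v} [Field k] [CharZero k] [Field K] [Algebra k K]
    (hk : (⊤ : IntermediateField ℚ k).FG) {h : K} (hh : Transcendental k h)
    (hfin : FiniteDimensional (IntermediateField.adjoin k {h}) K) {ℓ : ℕ} (hℓ : ℓ.Prime)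
    {f : K[X]} (hf : f.Monic) (hirr : Irreducible f) (hdeg : ¬ ℓ ∣ f.natDegree)
    {q : (AdjoinRoot f)[X]}
    (hq : f.map (AdjoinRoot.of f) = (X - C (AdjoinRoot.root f)) * q) (hqirr : Irreducible q)
    (hreg : ∀ x : AdjoinRoot q, IsAlgebraic k x → x ∈ Set.range (algebraMap k (AdjoinRoot q))) :
    {c₁ : k | {c₂ : k | ∀ j : ℕ, ℓ ∣ f.natDegree * j + 1 → ∀ w x₀ D : K, ∀ g : K[X],
      w = h - algebraMap k K c₁ → x₀ = algebraMap k K c₂ + w⁻¹ →
      D = w ^ f.natDegree * f.eval x₀ → g = f.scaleRoots (D ^ j * w) →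
      (∀ ξ ∈ Sha k ℓ g, ℓ • ξ = 0 → ξ = 0) ∧ TateModule ℓ (Sha k ℓ g) = ⊥ ∧
      (∀ t ∈ MW ℓ g, ℓ • t = 0 → t = 0) ∧
      Nat.card (MW ℓ g ⧸ (nsmulAddMonoidHom ℓ : MW ℓ g →+ MW ℓ g).range) =
        ℓ ^ ((ℓ - 1) / Module.finrank k (CyclotomicField ℓ k))}.Infinite}.Infinite := by
  have hp : Fact ℓ.Prime := ⟨hℓ⟩
  refine (Pool.Agent.MP1bdb59C.rank_all (Pool.Agent.MP1bdb59C.isHilbertian_of_fg hk) hh hf
    hirr hdeg hq hqirr hreg).mono ?_
  intro c₁ hc₁
  refine Set.Infinite.mono ?_ hc₁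
  intro c₂ hc j hj w x₀ D g hw hx hD hg
  obtain ⟨-, h1, h2, h3⟩ := hc j hj w D g hw (by rw [hD, hx]) hg
  have h1' := transfer k ℓ ℓ g h1
  refine ⟨h1', Pool.Agent.MP1bdb59C.tateModule_eq_bot ?_, ?_, ?_⟩
  · rintro ⟨ξ, hξ⟩ hξ2
    apply Subtype.ext
    exact h1' ξ hξ (congrArg Subtype.val hξ2)
  · intro t ht htℓ
    apply (toOld ℓ g K).injective
    rw [map_zero]
    refine h2 _ (fun σ => ?_) ?_
    · rw [← toOld_act, ht σ]
    · rw [← map_nsmul, htℓ, map_zero]
  · rw [card_eq, h3]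

end Pool.Agent.Results.MP_1bdb59_nt.RankTwists
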